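import Pool.Agent.R943.HL.Del

/-! Adding few points far away: the number of bisectors drops. -/

set_option autoImplicit false

namespace Pool.Agent.R943.HL

open Finset Pool.Agent.Y344.KD Pool.Agent.H189R2.Iid
open Pool.Agent.W296.HL (Gen Hv cr cr_swap IsBisector hv_of_line bis_finite GeneralPosition Line)
open Pool.Agent.Y429.HalvFew (shr exists_shear cr_shr shr_inj)

theorem exists_model' {P : Finset (ℝ × ℝ)} (hP : Gen P) : ∃ (ε : ℝ) (M : Model P),
    (∀ x ∈ P, ∀ y ∈ P, (shr ε x).1 = (shr ε y).1 → x = y) ∧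
    ∀ i j, (M.Q j).1 < (M.Q i).1 → (shr ε (M.e j)).1 < (shr ε (M.e i)).1 := by
  classical
  obtain ⟨ε, hε⟩ := exists_shear P
  set e : Fin #P → ℝ × ℝ := fun i => (P.equivFin.symm i : ℝ × ℝ) with he
  have hinj : Function.Injective e := fun i j h =>
    P.equivFin.symm.injective (Subtype.ext h)
  have hmem : ∀ i, e i ∈ P := fun i => (P.equivFin.symm i).2
  have hsurj : ∀ p ∈ P, ∃ i, e i = p := fun p hp => ⟨P.equivFin ⟨p, hp⟩, by simp [he]⟩
  set a : Fin #P → ℝ := fun l => (shr ε (e l)).1 with ha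
  set B : Fin #P → ℝ := fun l => (shr ε (e l)).2 with hB
  have hainj : ∀ i j, a i = a j → i = j := fun i j h => hinj (hε _ (hmem i) _ (hmem j) h)
  have hcr : ∀ i j l, cr (e j) (e i) (e l) =
      (a i - a j) * (B l - B j) - (B i - B j) * (a l - a j) := by
    intro i j l
    rw [← cr_shr ε]
    unfold cr
    rfl
  have hS : Pool.Agent.Results.MP_a08d0a_co.SmoothedLevel.Simple a B := by
    refine ⟨fun i j hij h => (hij (hainj i j h)).elim, ?_⟩
    rintro i j l hij hil hjl ⟨x, h1, h2⟩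
    unfold Pool.Agent.H189R2.Lev.ht at h1 h2
    have h0 : cr (e j) (e i) (e l) = 0 := by
      rw [hcr]
      have e1 : B i - B j = - (a i - a j) * x := by linarith
      have e2 : B l - B j = - (a l - a j) * x := by linarith
      rw [e1, e2]
      ring
    exact hP _ (hmem j) _ (hmem i) _ (hmem l) (fun h => hij (hinj h).symm)
      (fun h => hjl (hinj h)) (fun h => hil (hinj h)) h0
  obtain ⟨Q, hQ, hQ2⟩ := exists_GP hS
  have hleft : ∀ i j, (Q j).1 < (Q i).1 → a j < a i := by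
    intro i j hij
    rcases lt_trichotomy (a j) (a i) with h | h | h
    · exact h
    · rw [hainj j i h] at hij
      exact absurd hij (lt_irrefl _)
    · exact absurd (hQ2 j i h).1 (not_lt.mpr hij.le)
  refine ⟨ε, ⟨e, Q, hinj, hmem, hsurj, hQ, ?_⟩, hε, hleft⟩
  intro i j hij l
  have hlt := hleft i j hij
  rw [(hQ2 i j hlt).2 l, hcr]
  unfold Pool.Agent.H189R2.Lev.ht Pool.Agent.H189R2.Lev.cr
  have hpos : 0 < a i - a j := by linarith
  set x := (B j - B i) / (a i - a j) with hx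
  have hx2 : x * (a i - a j) = B j - B i := by rw [hx]; field_simp
  have key : (a i - a j) * ((a l * x + B l) - (a i * x + B i)) =
      (a i - a j) * (B l - B j) - (B i - B j) * (a l - a j) := by
    linear_combination (a l - a i) * hx2
  constructor
  · intro h
    rw [← key]
    exact mul_neg_of_pos_of_neg hpos (by linarith)
  · intro h
    rw [← key] at h
    by_contra hcon
    have : 0 ≤ (a i - a j) * ((a l * x + B l) - (a i * x + B i)) :=
      mul_nonneg hpos.le (by linarith)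
    linarith

/-- the far points -/
def far (ε T t : ℝ) : ℝ × ℝ := (t - ε * (T + t ^ 2), T + t ^ 2)

theorem shr_far (ε T t : ℝ) : shr ε (far ε T t) = (t, T + t ^ 2) := by
  unfold shr far
  simp

theorem far_inj {ε T a b : ℝ} (h : far ε T a = far ε T b) : a = b := by
  have := congrArg (shr ε) h
  rw [shr_far, shr_far, Prod.mk.injEq] at this
  exact this.1

theorem exists_T (P : Finset (ℝ × ℝ)) : ∃ T : ℝ,
    (∀ p ∈ P, ∀ q ∈ P, p.1 < q.1 → ∀ t : ℝ, 0 ≤ t → t ≤ 1 →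
      (q.2 - p.2) * (t - p.1) < (q.1 - p.1) * (T + t ^ 2 - p.2)) ∧
    (∀ p ∈ P, ∀ a b : ℝ, 0 ≤ a → a ≤ 1 → 0 ≤ b → b ≤ 1 →
      (a - p.1) * (b - p.1) < T + p.1 ^ 2 - p.2) := by
  classical
  have h1 : ∀ᶠ T : ℝ in Filter.atTop, ∀ p ∈ P, ∀ q ∈ P, p.1 < q.1 →
      |q.2 - p.2| * (1 + |p.1|) < (q.1 - p.1) * (T - p.2) := by
    rw [Finset.eventually_all]
    intro p hp
    rw [Finset.eventually_all]
    intro q hq
    by_cases h : p.1 < q.1
    · filter_upwards [Filter.eventually_gt_atTop (p.2 + |q.2 - p.2| * (1 + |p.1|) / (q.1 - p.1))]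
        with T hT _
      have h0 : 0 < q.1 - p.1 := by linarith
      have h2 : |q.2 - p.2| * (1 + |p.1|) / (q.1 - p.1) < T - p.2 := by linarith
      rw [div_lt_iff₀ h0] at h2
      linarith
    · exact Filter.Eventually.of_forall (fun T h' => absurd h' h)
  have h2 : ∀ᶠ T : ℝ in Filter.atTop, ∀ p ∈ P, (1 + |p.1|) ^ 2 < T + p.1 ^ 2 - p.2 := by
    rw [Finset.eventually_all]
    intro p hp
    filter_upwards [Filter.eventually_gt_atTop ((1 + |p.1|) ^ 2 - p.1 ^ 2 + p.2)] with T hT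
    linarith
  obtain ⟨T, h3, h4⟩ := (h1.and h2).exists
  refine ⟨T, ?_, ?_⟩
  · intro p hp q hq hpq t ht0 ht1
    have h5 := h3 p hp q hq hpq
    have h6 : (q.2 - p.2) * (t - p.1) ≤ |q.2 - p.2| * (1 + |p.1|) := by
      calc (q.2 - p.2) * (t - p.1) ≤ |(q.2 - p.2) * (t - p.1)| := le_abs_self _
        _ = |q.2 - p.2| * |t - p.1| := abs_mul _ _
        _ ≤ _ := by
            apply mul_le_mul_of_nonneg_left _ (abs_nonneg _)
            calc |t - p.1| ≤ |t| + |p.1| := abs_sub _ _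
              _ ≤ 1 + |p.1| := by rw [abs_of_nonneg ht0]; linarith
    have h7 : 0 ≤ (q.1 - p.1) * t ^ 2 := mul_nonneg (by linarith) (sq_nonneg _)
    nlinarith
  · intro p hp a b ha0 ha1 hb0 hb1
    have h5 := h4 p hp
    have h6 : ∀ c : ℝ, 0 ≤ c → c ≤ 1 → |c - p.1| ≤ 1 + |p.1| := by
      intro c hc0 hc1
      calc |c - p.1| ≤ |c| + |p.1| := abs_sub _ _
        _ ≤ 1 + |p.1| := by rw [abs_of_nonneg hc0]; linarith
    calc (a - p.1) * (b - p.1) ≤ |(a - p.1) * (b - p.1)| := le_abs_self _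
      _ = |a - p.1| * |b - p.1| := abs_mul _ _
      _ ≤ (1 + |p.1|) * (1 + |p.1|) :=
          mul_le_mul (h6 a ha0 ha1) (h6 b hb0 hb1) (abs_nonneg _) (by positivity)
      _ = (1 + |p.1|) ^ 2 := by ring
      _ < _ := h5

theorem nz_swap {p q x : ℝ × ℝ} (h : cr p q x ≠ 0) : cr q p x ≠ 0 := by
  rw [cr_swap]
  exact neg_ne_zero.mpr h

theorem nz_rot {p q x : ℝ × ℝ} (h : cr p q x ≠ 0) : cr q x p ≠ 0 := by
  have : cr q x p = cr p q x := by unfold cr; ring
  rw [this]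
  exact h

theorem gp_of_gen {P : Finset (ℝ × ℝ)} (hP : Gen P) : GeneralPosition P := by
  intro a b c hab p hp q hq r hr hpq hpr hqr ⟨h1, h2, h3⟩
  apply hP p hp q hq r hr hpq hpr hqr
  simp only [Line, Set.mem_ofPred_eq] at h1 h2 h3
  unfold cr
  have e1 : a * (q.1 - p.1) + b * (q.2 - p.2) = 0 := by linarith
  have e2 : a * (r.1 - p.1) + b * (r.2 - p.2) = 0 := by linarith
  rcases hab with h | h
  · have : a * ((q.1 - p.1) * (r.2 - p.2) - (q.2 - p.2) * (r.1 - p.1)) = 0 := by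
      linear_combination (r.2 - p.2) * e1 - (q.2 - p.2) * e2
    exact (mul_eq_zero.mp this).resolve_left h
  · have : b * ((q.1 - p.1) * (r.2 - p.2) - (q.2 - p.2) * (r.1 - p.1)) = 0 := by
      linear_combination (q.1 - p.1) * e2 - (r.1 - p.1) * e1
    exact (mul_eq_zero.mp this).resolve_left h

/-- the set of the first `m` far points -/
noncomputable def farSet (ε T : ℝ) (m : ℕ) : Finset (ℝ × ℝ) :=
  (range m).image (fun k : ℕ => far ε T (1 / ((k : ℝ) + 1)))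

theorem mem_farSet {ε T : ℝ} {m : ℕ} {w : ℝ × ℝ} (h : w ∈ farSet ε T m) :
    ∃ t : ℝ, 0 ≤ t ∧ t ≤ 1 ∧ w = far ε T t := by
  unfold farSet at h
  rw [mem_image] at h
  obtain ⟨k, -, rfl⟩ := h
  refine ⟨_, by positivity, ?_, rfl⟩
  rw [div_le_one (by positivity)]
  have : (0 : ℝ) ≤ k := Nat.cast_nonneg k
  linarith

theorem card_farSet (ε T : ℝ) (m : ℕ) : #(farSet ε T m) = m := by
  unfold farSet
  rw [card_image_of_injective, card_range]
  intro k l h
  have h1 := far_inj h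
  have hk : (0 : ℝ) < (k : ℝ) + 1 := by positivity
  have hl : (0 : ℝ) < (l : ℝ) + 1 := by positivity
  rw [div_eq_div_iff hk.ne' hl.ne'] at h1
  have : (k : ℝ) = l := by linarith
  exact_mod_cast this

theorem cr_far (ε T : ℝ) (p q : ℝ × ℝ) (t : ℝ) : cr p q (far ε T t) =
    ((shr ε q).1 - (shr ε p).1) * (T + t ^ 2 - (shr ε p).2) -
      ((shr ε q).2 - (shr ε p).2) * (t - (shr ε p).1) := by
  rw [← cr_shr ε, shr_far]
  rfl

theorem cr_far2 (ε T : ℝ) (a b : ℝ) (p : ℝ × ℝ) : cr (far ε T a) (far ε T b) p =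
    (b - a) * ((a - (shr ε p).1) * (b - (shr ε p).1) - (T + (shr ε p).1 ^ 2 - (shr ε p).2)) := by
  rw [← cr_shr ε, shr_far, shr_far]
  unfold cr
  simp only
  ring

theorem cr_far3 (ε T : ℝ) (a b c : ℝ) : cr (far ε T a) (far ε T b) (far ε T c) =
    (b - a) * ((c - a) * (c - b)) := by
  rw [← cr_shr ε, shr_far, shr_far, shr_far]
  unfold cr
  simp only
  ring

theorem convex_far (ε T : ℝ) (m : ℕ) : Pool.Agent.TH511.HLC.ConvexPosition (farSet ε T m) := by
  intro p hp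
  obtain ⟨t, -, -, rfl⟩ := mem_farSet hp
  set f : ℝ × ℝ → ℝ := fun x => x.2 - 2 * t * (x.1 + ε * x.2) with hf
  have hlin : IsLinearMap ℝ f := by
    constructor
    · intro x y
      simp only [hf, Prod.fst_add, Prod.snd_add]
      ring
    · intro c x
      simp only [hf, Prod.smul_fst, Prod.smul_snd, smul_eq_mul]
      ring
  have hconv : Convex ℝ {x | f (far ε T t) < f x} := convex_halfSpace_gt hlin _
  intro hmem
  have hsub : ((farSet ε T m : Set (ℝ × ℝ)) \ {far ε T t}) ⊆ {x | f (far ε T t) < f x} := by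
    rintro x ⟨hx, hne⟩
    obtain ⟨u, -, -, rfl⟩ := mem_farSet (mem_coe.mp hx)
    have hut : u ≠ t := fun h => hne (by rw [h]; rfl)
    simp only [Set.mem_ofPred_eq, hf, far]
    have : 0 < (u - t) ^ 2 := by
      have : u - t ≠ 0 := sub_ne_zero.mpr hut
      positivity
    nlinarith
  have h0 : f (far ε T t) < f (far ε T t) := convexHull_min hsub hconv hmem
  exact lt_irrefl _ h0

/-- the conditions on the height -/
structure Good (P : Finset (ℝ × ℝ)) (ε T : ℝ) : Prop where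
  inj : ∀ x ∈ P, ∀ y ∈ P, (shr ε x).1 = (shr ε y).1 → x = y
  above : ∀ p ∈ P, ∀ q ∈ P, (shr ε p).1 < (shr ε q).1 → ∀ t : ℝ, 0 ≤ t → t ≤ 1 →
    0 < cr p q (far ε T t)
  side : ∀ p ∈ P, ∀ a b : ℝ, 0 ≤ a → a ≤ 1 → 0 ≤ b → b ≤ 1 → a ≠ b →
    cr (far ε T a) (far ε T b) p ≠ 0

theorem exists_good {P : Finset (ℝ × ℝ)} {ε : ℝ}
    (hε : ∀ x ∈ P, ∀ y ∈ P, (shr ε x).1 = (shr ε y).1 → x = y) : ∃ T, Good P ε T := by
  classical
  obtain ⟨T, h1, h2⟩ := exists_T (P.image (shr ε))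
  refine ⟨T, hε, ?_, ?_⟩
  · intro p hp q hq hpq t ht0 ht1
    have := h1 _ (mem_image_of_mem _ hp) _ (mem_image_of_mem _ hq) hpq t ht0 ht1
    rw [cr_far]
    linarith
  · intro p hp a b ha0 ha1 hb0 hb1 hab
    have := h2 _ (mem_image_of_mem _ hp) a b ha0 ha1 hb0 hb1
    rw [cr_far2]
    apply mul_ne_zero (sub_ne_zero.mpr hab.symm)
    linarith

theorem Good.two {P : Finset (ℝ × ℝ)} {ε T : ℝ} (h : Good P ε T) {p q : ℝ × ℝ} (hp : p ∈ P)
    (hq : q ∈ P) (hpq : p ≠ q) {t : ℝ} (ht0 : 0 ≤ t) (ht1 : t ≤ 1) :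
    cr p q (far ε T t) ≠ 0 := by
  rcases lt_trichotomy (shr ε p).1 (shr ε q).1 with h1 | h1 | h1
  · exact (h.above p hp q hq h1 t ht0 ht1).ne'
  · exact absurd (h.inj p hp q hq h1) hpq
  · exact nz_swap (h.above q hq p hp h1 t ht0 ht1).ne'

theorem Good.disj {P : Finset (ℝ × ℝ)} {ε T : ℝ} (h : Good P ε T) {t : ℝ} (ht0 : 0 ≤ t)
    (ht1 : t ≤ 1) : far ε T t ∉ P := by
  intro hP
  have hex : ∃ a b : ℝ, 0 ≤ a ∧ a ≤ 1 ∧ 0 ≤ b ∧ b ≤ 1 ∧ a ≠ b ∧ a = t := by
    by_cases h0 : t = 0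
    · exact ⟨0, 1, by norm_num, by norm_num, by norm_num, by norm_num, by norm_num, h0.symm⟩
    · exact ⟨t, 0, ht0, ht1, by norm_num, by norm_num, h0, rfl⟩
  obtain ⟨a, b, ha0, ha1, hb0, hb1, hab, rfl⟩ := hex
  have := h.side _ hP a b ha0 ha1 hb0 hb1 hab
  apply this
  unfold cr
  ring

theorem Good.gen {P : Finset (ℝ × ℝ)} {ε T : ℝ} (h : Good P ε T) (hP : Gen P) (m : ℕ) :
    Gen (P ∪ farSet ε T m) := by
  classical
  intro p hp q hq x hx hpq hpx hqx
  rw [mem_union] at hp hq hx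
  rcases hp with hp | hp <;> rcases hq with hq | hq <;> rcases hx with hx | hx
  · exact hP p hp q hq x hx hpq hpx hqx
  · obtain ⟨c, hc0, hc1, rfl⟩ := mem_farSet hx
    exact h.two hp hq hpq hc0 hc1
  · obtain ⟨b, hb0, hb1, rfl⟩ := mem_farSet hq
    exact nz_rot (h.two hx hp hpx.symm hb0 hb1)
  · obtain ⟨b, hb0, hb1, rfl⟩ := mem_farSet hq
    obtain ⟨c, hc0, hc1, rfl⟩ := mem_farSet hx
    have hbc : b ≠ c := fun h => hqx (by rw [h])
    exact nz_rot (nz_rot (h.side p hp b c hb0 hb1 hc0 hc1 hbc))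
  · obtain ⟨a, ha0, ha1, rfl⟩ := mem_farSet hp
    exact nz_rot (nz_rot (h.two hq hx hqx ha0 ha1))
  · obtain ⟨a, ha0, ha1, rfl⟩ := mem_farSet hp
    obtain ⟨c, hc0, hc1, rfl⟩ := mem_farSet hx
    have hac : a ≠ c := fun h => hpx (by rw [h])
    exact nz_rot (h.side q hq c a hc0 hc1 ha0 ha1 hac.symm)
  · obtain ⟨a, ha0, ha1, rfl⟩ := mem_farSet hp
    obtain ⟨b, hb0, hb1, rfl⟩ := mem_farSet hq
    have hab : a ≠ b := fun h => hpq (by rw [h])
    exact h.side x hx a b ha0 ha1 hb0 hb1 hab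
  · obtain ⟨a, ha0, ha1, rfl⟩ := mem_farSet hp
    obtain ⟨b, hb0, hb1, rfl⟩ := mem_farSet hq
    obtain ⟨c, hc0, hc1, rfl⟩ := mem_farSet hx
    have hab : a ≠ b := fun h => hpq (by rw [h])
    have hbc : b ≠ c := fun h => hqx (by rw [h])
    have hac : a ≠ c := fun h => hpx (by rw [h])
    rw [cr_far3]
    exact mul_ne_zero (sub_ne_zero.mpr hab.symm)
      (mul_ne_zero (sub_ne_zero.mpr hac.symm) (sub_ne_zero.mpr hbc.symm))

open Classical in
theorem below_union {P : Finset (ℝ × ℝ)} {ε T : ℝ} (h : Good P ε T) {p q : ℝ × ℝ} (hp : p ∈ P)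
    (hq : q ∈ P) (hpq : (shr ε p).1 < (shr ε q).1) (m : ℕ) :
    #{x ∈ P ∪ farSet ε T m | cr p q x < 0} = #{x ∈ P | cr p q x < 0} := by
  congr 1
  ext x
  rw [mem_filter, mem_filter, mem_union]
  constructor
  · rintro ⟨h1 | h1, h2⟩
    · exact ⟨h1, h2⟩
    · obtain ⟨t, ht0, ht1, rfl⟩ := mem_farSet h1
      exact absurd h2 (not_lt.mpr (h.above p hp q hq hpq t ht0 ht1).le)
  · rintro ⟨h1, h2⟩
    exact ⟨Or.inl h1, h2⟩

open Classical in
theorem bis_union {P : Finset (ℝ × ℝ)} (hP : Gen P) {ε T : ℝ} (h : Good P ε T) (M : Model P)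
    (hM : ∀ i j, (M.Q j).1 < (M.Q i).1 → (shr ε (M.e j)).1 < (shr ε (M.e i)).1) (i : ℕ)
    (hc : #(P ∪ farSet ε T (2 * i)) = #P + 2 * i) :
    ({L | IsBisector (P ∪ farSet ε T (2 * i)) L}.ncard : ℝ) ≤
      4 * (#P + 2 * i) + Pool.Agent.Y344.KD.ee M.Q (#P / 2 + i - 1) := by
  set U := P ∪ farSet ε T (2 * i) with hU
  have hGU : Gen U := h.gen hP _
  have h1 := Pool.Agent.Y429.HalvFew.touch hGU (S := farSet ε T (2 * i)) subset_union_right
    (c := 1) (fun _ => farSet ε T (2 * i)) (fun _ => convex_far ε T _) (fun p hp => ⟨0, hp⟩)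
  have h2 : {L | IsBisector U L}.ncard ≤
      {L | IsBisector U L ∧ ∃ p ∈ farSet ε T (2 * i), p ∈ L}.ncard +
        {L | IsBisector U L ∧ ∀ p ∈ farSet ε T (2 * i), p ∉ L}.ncard := by
    have hsub : {L | IsBisector U L} ⊆
        {L | IsBisector U L ∧ ∃ p ∈ farSet ε T (2 * i), p ∈ L} ∪
          {L | IsBisector U L ∧ ∀ p ∈ farSet ε T (2 * i), p ∉ L} := by
      intro L hL
      by_cases hh : ∃ p ∈ farSet ε T (2 * i), p ∈ L
      · exact Or.inl ⟨hL, hh⟩
      · push Not at hh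
        exact Or.inr ⟨hL, hh⟩
    refine (Set.ncard_le_ncard hsub ?_).trans (Set.ncard_union_le _ _)
    exact Set.Finite.union ((bis_finite U).subset fun L hL => hL.1)
      ((bis_finite U).subset fun L hL => hL.1)
  have h3 : {L | IsBisector U L ∧ ∀ p ∈ farSet ε T (2 * i), p ∉ L}.ncard ≤
      (EW M.Q {#P / 2 + i - 1}).card := by
    have hfin : {L | IsBisector U L ∧ ∀ p ∈ farSet ε T (2 * i), p ∉ L}.Finite :=
      (bis_finite U).subset fun L hL => hL.1
    rw [Set.ncard_eq_toFinset_card _ hfin]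
    apply card_le_card_of_surjOn
      (fun q : Fin #P × Fin #P => {x : ℝ × ℝ | cr (M.e q.1) (M.e q.2) x = 0})
    intro L hL
    rw [mem_coe, Set.Finite.mem_toFinset] at hL
    obtain ⟨hL, hno⟩ := hL
    obtain ⟨a, b, c, hab, hLe, ⟨p, hp, p', hp', hne, hpL, hpL'⟩, h4, h5⟩ := id hL
    have hpP : p ∈ P := (mem_union.mp hp).resolve_right (fun hh => hno p hh hpL)
    have hpP' : p' ∈ P := (mem_union.mp hp').resolve_right (fun hh => hno p' hh hpL')
    obtain ⟨u, rfl⟩ := M.surj p hpP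
    obtain ⟨v, rfl⟩ := M.surj p' hpP'
    have huv : u ≠ v := fun h => hne (by rw [h])
    have hor : ∃ u v : Fin #P, (M.Q v).1 < (M.Q u).1 ∧ M.e u ≠ M.e v ∧
        M.e u ∈ L ∧ M.e v ∈ L := by
      rcases lt_trichotomy (M.Q v).1 (M.Q u).1 with h | h | h
      · exact ⟨u, v, h, hne, hpL, hpL'⟩
      · exact absurd (M.gp.1 _ _ h).symm huv
      · exact ⟨v, u, h, hne.symm, hpL', hpL⟩
    obtain ⟨u, v, huv, hne2, huL, hvL⟩ := hor
    obtain ⟨h6, -⟩ := hv_of_line hL hne2.symm hvL huL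
    obtain ⟨-, h7⟩ := hv_of_line hL hne2 huL hvL
    refine ⟨(u, v), ?_, h7.symm⟩
    have hT : ((u, v) : Fin #P × Fin #P) ∈ Pool.Agent.H189R2.Iid.T M.Q := mem_T.mpr huv
    unfold EW
    rw [mem_coe, mem_filter, mem_singleton]
    refine ⟨hT, ?_⟩
    obtain ⟨-, -, h8⟩ := h6
    rw [hU, below_union h (M.mem v) (M.mem u) (hM u v huv)] at h8
    have h9 : lev M.Q (u, v) = #{x ∈ P | cr (M.e v) (M.e u) x < 0} := by
      rw [lev_eq]
      apply card_bij (fun l _ => M.e l)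
      · intro l hl
        rw [mem_filter]
        exact ⟨M.mem l, (M.mem_low hT).mp hl⟩
      · intro l _ l' _ hh
        exact M.inj hh
      · intro x hx
        rw [mem_filter] at hx
        obtain ⟨l, rfl⟩ := M.surj x hx.1
        exact ⟨l, (M.mem_low hT).mpr hx.2, rfl⟩
    rw [h9, h8, ← hU, hc]
    omega
  have h4 : {L | IsBisector U L}.ncard ≤ 4 * 1 * #U + (EW M.Q {#P / 2 + i - 1}).card :=
    h2.trans (Nat.add_le_add h1 h3)
  rw [hc] at h4
  have h5 : ({L | IsBisector U L}.ncard : ℝ) ≤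
      ((4 * 1 * (#P + 2 * i) + (EW M.Q {#P / 2 + i - 1}).card : ℕ) : ℝ) := by exact_mod_cast h4
  refine h5.trans (le_of_eq ?_)
  unfold Pool.Agent.Y344.KD.ee
  push_cast
  ring

open Classical in
/-- adding fewer than `2 m` points -/
theorem add_points {P : Finset (ℝ × ℝ)} (hP : Gen P) {m : ℕ} (hm : 1 ≤ m)
    (hmP : m ≤ #P) : ∃ U : Finset (ℝ × ℝ), P ⊆ U ∧ Gen U ∧ (∃ i < m, #U = #P + 2 * i) ∧
      ({L | IsBisector U L}.ncard : ℝ) ≤ 33 * #P * (#P / m) ^ (1 / 3 : ℝ) := by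
  obtain ⟨ε, M, hε, hM⟩ := exists_model' hP
  obtain ⟨T, hT⟩ := exists_good hε
  have hcard : ∀ i, #(P ∪ farSet ε T (2 * i)) = #P + 2 * i := by
    intro i
    rw [card_union_of_disjoint, card_farSet]
    rw [disjoint_left]
    intro x hx hx2
    obtain ⟨t, ht0, ht1, rfl⟩ := mem_farSet hx2
    exact hT.disj ht0 ht1 hx
  have hn1 : (1 : ℝ) ≤ #P := by exact_mod_cast hm.trans hmP
  have hm0 : (0 : ℝ) < m := by exact_mod_cast hm
  have hmn : (m : ℝ) ≤ #P := by exact_mod_cast hmP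
  -- a light level in the window
  set W : Finset ℕ := (range m).image (fun i => #P / 2 + i - 1) with hW
  have hWc : W.card ≤ m := by
    refine card_image_le.trans ?_
    rw [card_range]
  have hwin := window M.gp W (K := #P / 2 + m - 1) (fun k hk => by
    rw [hW, mem_image] at hk
    obtain ⟨i, hi, rfl⟩ := hk
    rw [mem_range] at hi
    omega)
  rw [← sum_ee] at hwin
  by_cases h2 : 2 ≤ #P
  · have hinj : Set.InjOn (fun i => #P / 2 + i - 1) (range m : Set ℕ) := by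
      intro i _ j _ h
      simp only at h
      omega
    rw [hW, sum_image (fun i hi j hj h => hinj (mem_coe.mpr hi) (mem_coe.mpr hj) h)] at hwin
    rw [← hW] at hwin
    have hK : (((#P / 2 + m - 1 : ℕ) : ℝ) + 1) ≤ 3 / 2 * #P := by
      have h3 : ((#P / 2 + m - 1 : ℕ) : ℝ) + 1 = ((#P / 2 + m : ℕ) : ℝ) := by
        have : #P / 2 + m = (#P / 2 + m - 1) + 1 := by omega
        rw [this]
        push_cast
        rfl
      rw [h3]
      push_cast
      have := @Nat.cast_div_le ℝ _ _ _ #P 2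
      push_cast at this
      linarith
    have hbound : 18 * (#P : ℝ) * ((((#P / 2 + m - 1 : ℕ) : ℝ) + 1) ^ (1 / 3 : ℝ) *
        (W.card : ℝ) ^ (2 / 3 : ℝ)) ≤ m * (21 * #P * (#P / m) ^ (1 / 3 : ℝ)) := by
      have e1 : (((#P / 2 + m - 1 : ℕ) : ℝ) + 1) ^ (1 / 3 : ℝ) ≤ (3 / 2 * (#P : ℝ)) ^ (1 / 3 : ℝ) :=
        Real.rpow_le_rpow (by positivity) hK (by norm_num)
      have e2 : (W.card : ℝ) ^ (2 / 3 : ℝ) ≤ (m : ℝ) ^ (2 / 3 : ℝ) :=
        Real.rpow_le_rpow (by positivity) (by exact_mod_cast hWc) (by norm_num)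
      have e3 : (3 / 2 : ℝ) ^ (1 / 3 : ℝ) ≤ 7 / 6 := by
        calc (3 / 2 : ℝ) ^ (1 / 3 : ℝ) ≤ ((7 / 6 : ℝ) ^ (3 : ℕ)) ^ (1 / 3 : ℝ) :=
              Real.rpow_le_rpow (by norm_num) (by norm_num) (by norm_num)
          _ = 7 / 6 := by
              rw [← Real.rpow_natCast, ← Real.rpow_mul (by norm_num)]
              norm_num
      have e4 : (3 / 2 * (#P : ℝ)) ^ (1 / 3 : ℝ) * (m : ℝ) ^ (2 / 3 : ℝ) ≤
          7 / 6 * (m * (#P / m) ^ (1 / 3 : ℝ)) := by
        rw [Real.mul_rpow (by norm_num) (by linarith), Real.div_rpow (by linarith) hm0.le]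
        have e5 : (m : ℝ) ^ (2 / 3 : ℝ) * (m : ℝ) ^ (1 / 3 : ℝ) = m := by
          rw [← Real.rpow_add hm0]
          norm_num
        have e6 : 0 < (m : ℝ) ^ (1 / 3 : ℝ) := by positivity
        have e7 : (m : ℝ) * ((#P : ℝ) ^ (1 / 3 : ℝ) / (m : ℝ) ^ (1 / 3 : ℝ)) =
            (#P : ℝ) ^ (1 / 3 : ℝ) * (m : ℝ) ^ (2 / 3 : ℝ) := by
          rw [eq_comm, ← mul_div_assoc, eq_div_iff e6.ne', mul_assoc, e5]
          ring
        rw [e7]
        have e8 : 0 ≤ (#P : ℝ) ^ (1 / 3 : ℝ) * (m : ℝ) ^ (2 / 3 : ℝ) := by positivity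
        nlinarith
      calc _ ≤ 18 * (#P : ℝ) * ((3 / 2 * (#P : ℝ)) ^ (1 / 3 : ℝ) * (m : ℝ) ^ (2 / 3 : ℝ)) := by
            apply mul_le_mul_of_nonneg_left _ (by positivity)
            exact mul_le_mul e1 e2 (by positivity) (by positivity)
        _ ≤ 18 * (#P : ℝ) * (7 / 6 * (m * (#P / m) ^ (1 / 3 : ℝ))) :=
            mul_le_mul_of_nonneg_left e4 (by positivity)
        _ = _ := by ring
    have hex : ∃ i ∈ range m, Pool.Agent.Y344.KD.ee M.Q (#P / 2 + i - 1) ≤ 21 * #P * (#P / m) ^ (1 / 3 : ℝ) := by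
      apply exists_le_of_sum_le (nonempty_range_iff.mpr (by omega))
      rw [sum_const, card_range, nsmul_eq_mul]
      exact hwin.trans hbound
    obtain ⟨i, hi, hei⟩ := hex
    rw [mem_range] at hi
    refine ⟨P ∪ farSet ε T (2 * i), subset_union_left, hT.gen hP _, ⟨i, hi, hcard i⟩, ?_⟩
    refine (bis_union hP hT M hM i (hcard i)).trans ?_
    have hi' : (i : ℝ) ≤ m := by exact_mod_cast hi.le
    have hroot : (1 : ℝ) ≤ ((#P : ℝ) / m) ^ (1 / 3 : ℝ) := by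
      apply Real.one_le_rpow _ (by norm_num)
      rw [le_div_iff₀ hm0]
      linarith
    have h12 : 4 * ((#P : ℝ) + 2 * i) ≤ 12 * #P * ((#P : ℝ) / m) ^ (1 / 3 : ℝ) := by
      calc 4 * ((#P : ℝ) + 2 * i) ≤ 12 * #P * 1 := by linarith
        _ ≤ _ := mul_le_mul_of_nonneg_left hroot (by positivity)
    linarith
  · -- at most one point
    refine ⟨P, subset_refl _, hP, ⟨0, hm, by ring⟩, ?_⟩
    have h3 : {L | IsBisector P L} = ∅ := by
      ext L
      simp only [Set.mem_ofPred_eq, Set.mem_empty_iff_false, iff_false]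
      rintro ⟨a, b, c, -, -, ⟨p, hp, q, hq, hpq, -⟩, -⟩
      exact h2 (one_lt_card.mpr ⟨p, hp, q, hq, hpq⟩)
    rw [h3, Set.ncard_empty, Nat.cast_zero]
    positivity

end Pool.Agent.R943.HL
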