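import Pool.Agent.R943.HL.Marg
import Pool.Agent.Y429.HalvFew

/-! Random subsets of a point set: the expected number of bisectors. -/

set_option autoImplicit false

namespace Pool.Agent.R943.HL

open Finset Pool.Agent.Y344.KD Pool.Agent.H189R2.Iid
open Pool.Agent.W296.HL (Gen Hv cr cr_swap IsBisector hv_of_line bis_finite)
open Pool.Agent.Y429.HalvFew (shr exists_shear cr_shr shr_inj)

/-- an enumeration of a point set together with a generic point set with the same order type -/
structure Model (P : Finset (ℝ × ℝ)) where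
  e : Fin #P → ℝ × ℝ
  Q : Fin #P → ℝ × ℝ
  inj : Function.Injective e
  mem : ∀ i, e i ∈ P
  surj : ∀ p ∈ P, ∃ i, e i = p
  gp : GP Q
  below : ∀ i j, (Q j).1 < (Q i).1 → ∀ l, (Q l ∈ low (Q i) (Q j) ↔ cr (e j) (e i) (e l) < 0)

theorem exists_model {P : Finset (ℝ × ℝ)} (hP : Gen P) : Nonempty (Model P) := by
  classical
  obtain ⟨ε, hε⟩ := exists_shear P
  set e : Fin #P → ℝ × ℝ := fun i => (P.equivFin.symm i : ℝ × ℝ) with he
  have hinj : Function.Injective e := fun i j h =>
    P.equivFin.symm.injective (Subtype.ext h)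
  have hmem : ∀ i, e i ∈ P := fun i => (P.equivFin.symm i).2
  have hsurj : ∀ p ∈ P, ∃ i, e i = p := fun p hp => ⟨P.equivFin ⟨p, hp⟩, by simp [he]⟩
  set a : Fin #P → ℝ := fun l => (shr ε (e l)).1 with ha
  set B : Fin #P → ℝ := fun l => (shr ε (e l)).2 with hB
  have hainj : ∀ i j, a i = a j → i = j := fun i j h => hinj (hε _ (hmem i) _ (hmem j) h)
  -- the cross product of the sheared points
  have hcr : ∀ i j l, cr (e j) (e i) (e l) =
      (a i - a j) * (B l - B j) - (B i - B j) * (a l - a j) := by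
    intro i j l
    rw [← cr_shr ε]
    unfold cr
    rfl
  have hS : Pool.Agent.Results.MP_a08d0a_co.SmoothedLevel.Simple a B := by
    refine ⟨fun i j hij h => (hij (hainj i j h)).elim, ?_⟩
    rintro i j l hij hil hjl ⟨x, h1, h2⟩
    unfold Pool.Agent.H189R2.Lev.ht at h1 h2
    have h0 : cr (e j) (e i) (e l) = 0 := by
      rw [hcr]
      have e1 : B i - B j = - (a i - a j) * x := by linarith
      have e2 : B l - B j = - (a l - a j) * x := by linarith
      rw [e1, e2]
      ring
    exact hP _ (hmem j) _ (hmem i) _ (hmem l) (fun h => hij (hinj h).symm)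
      (fun h => hjl (hinj h)) (fun h => hil (hinj h)) h0
  obtain ⟨Q, hQ, hQ2⟩ := exists_GP hS
  refine ⟨⟨e, Q, hinj, hmem, hsurj, hQ, ?_⟩⟩
  intro i j hij l
  have hlt : a j < a i := by
    rcases lt_trichotomy (a j) (a i) with h | h | h
    · exact h
    · rw [hainj j i h] at hij
      exact absurd hij (lt_irrefl _)
    · exact absurd (hQ2 j i h).1 (not_lt.mpr hij.le)
  rw [(hQ2 i j hlt).2 l, hcr]
  unfold Pool.Agent.H189R2.Lev.ht Pool.Agent.H189R2.Lev.cr
  have hpos : 0 < a i - a j := by linarith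
  set x := (B j - B i) / (a i - a j) with hx
  have hx2 : x * (a i - a j) = B j - B i := by rw [hx]; field_simp
  have key : (a i - a j) * ((a l * x + B l) - (a i * x + B i)) =
      (a i - a j) * (B l - B j) - (B i - B j) * (a l - a j) := by
    linear_combination (a l - a i) * hx2
  constructor
  · intro h
    rw [← key]
    exact mul_neg_of_pos_of_neg hpos (by linarith)
  · intro h
    rw [← key] at h
    by_contra hcon
    have : 0 ≤ (a i - a j) * ((a l * x + B l) - (a i * x + B i)) :=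
      mul_nonneg hpos.le (by linarith)
    linarith

variable {P : Finset (ℝ × ℝ)}

open Classical in
/-- the points above the line of the pair `q` -/
noncomputable def Model.hi (M : Model P) (q : Fin #P × Fin #P) : Finset (Fin #P) :=
  univ \ insert q.1 (insert q.2 (lowSet M.Q q))

open Classical in
/-- pairs with equally many survivors on both sides -/
noncomputable def Model.bal (M : Model P) (D : Finset (Fin #P)) : Finset (Fin #P × Fin #P) :=
  (T M.Q).filter (fun q => q.1 ∉ D ∧ q.2 ∉ D ∧ (lowSet M.Q q \ D).card = (M.hi q \ D).card)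

open Classical in
theorem mem_lowSet {n : ℕ} {Q : Fin n → ℝ × ℝ} {q : Fin n × Fin n} {l : Fin n} :
    l ∈ lowSet Q q ↔ Q l ∈ low (Q q.1) (Q q.2) := by
  unfold lowSet
  simp

theorem Model.mem_low (M : Model P) {q : Fin #P × Fin #P} (hq : q ∈ T M.Q) {l : Fin #P} :
    l ∈ lowSet M.Q q ↔ cr (M.e q.2) (M.e q.1) (M.e l) < 0 := by
  rw [mem_lowSet]
  exact M.below _ _ (mem_T.mp hq) l

theorem cr_left (p q : ℝ × ℝ) : cr p q p = 0 := by unfold cr; ring

theorem cr_right (p q : ℝ × ℝ) : cr p q q = 0 := by unfold cr; ring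

theorem Model.mem_hi (M : Model P) (hP : Gen P) {q : Fin #P × Fin #P} (hq : q ∈ T M.Q)
    {l : Fin #P} : l ∈ M.hi q ↔ 0 < cr (M.e q.2) (M.e q.1) (M.e l) := by
  classical
  unfold Model.hi
  rw [mem_sdiff, mem_insert, mem_insert, M.mem_low hq]
  have hne : q.1 ≠ q.2 := by
    intro h
    rw [mem_T, h] at hq
    exact lt_irrefl _ hq
  constructor
  · rintro ⟨-, h⟩
    push Not at h
    obtain ⟨h1, h2, h3⟩ := h
    have h4 := hP _ (M.mem q.2) _ (M.mem q.1) _ (M.mem l) (fun h => hne (M.inj h).symm)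
      (fun h => h2 (M.inj h).symm) (fun h => h1 (M.inj h).symm)
    exact lt_of_le_of_ne h3 (Ne.symm h4)
  · intro h
    refine ⟨mem_univ _, ?_⟩
    push Not
    refine ⟨?_, ?_, h.le⟩
    · rintro rfl
      rw [cr_right] at h
      exact lt_irrefl _ h
    · rintro rfl
      rw [cr_left] at h
      exact lt_irrefl _ h

open Classical in
/-- the surviving points -/
noncomputable def Model.sur (M : Model P) (D : Finset (Fin #P)) : Finset (ℝ × ℝ) :=
  Dᶜ.image M.e

open Classical in
theorem Model.card_sur (M : Model P) (D : Finset (Fin #P)) (c : ℝ × ℝ → Prop) :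
    #{x ∈ M.sur D | c x} = #{l ∈ Dᶜ | c (M.e l)} := by
  unfold Model.sur
  rw [filter_image, card_image_of_injective _ M.inj]

open Classical in
theorem Model.bis_le (M : Model P) (hP : Gen P) (D : Finset (Fin #P)) :
    {L | IsBisector (M.sur D) L}.ncard ≤ #(M.bal D) := by
  rw [Set.ncard_eq_toFinset_card _ (bis_finite (M.sur D))]
  apply card_le_card_of_surjOn
    (fun q : Fin #P × Fin #P => {x : ℝ × ℝ | cr (M.e q.1) (M.e q.2) x = 0})
  intro L hL
  rw [mem_coe, Set.Finite.mem_toFinset] at hL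
  replace hL : IsBisector (M.sur D) L := hL
  obtain ⟨a, b, c, hab, hLe, ⟨p, hp, p', hp', hne, hpL, hpL'⟩, h1, h2⟩ := id hL
  unfold Model.sur at hp hp'
  rw [mem_image] at hp hp'
  obtain ⟨i, hi, rfl⟩ := hp
  obtain ⟨j, hj, rfl⟩ := hp'
  have hij : i ≠ j := fun h => hne (by rw [h])
  rw [mem_compl] at hi hj
  -- orient the pair
  have hor : ∃ u v : Fin #P, (M.Q v).1 < (M.Q u).1 ∧ u ∉ D ∧ v ∉ D ∧ M.e u ≠ M.e v ∧
      M.e u ∈ L ∧ M.e v ∈ L := by
    rcases lt_trichotomy (M.Q j).1 (M.Q i).1 with h | h | h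
    · exact ⟨i, j, h, hi, hj, hne, hpL, hpL'⟩
    · exact absurd (M.gp.1 _ _ h).symm hij
    · exact ⟨j, i, h, hj, hi, hne.symm, hpL', hpL⟩
  obtain ⟨u, v, huv, hu, hv, hne2, huL, hvL⟩ := hor
  obtain ⟨h3, h4⟩ := hv_of_line hL hne2 huL hvL
  refine ⟨(u, v), ?_, h4.symm⟩
  have hT : ((u, v) : Fin #P × Fin #P) ∈ T M.Q := mem_T.mpr huv
  unfold Model.bal
  rw [mem_coe, mem_filter]
  refine ⟨hT, hu, hv, ?_⟩
  obtain ⟨-, h5, h6⟩ := h3
  rw [M.card_sur] at h5 h6
  have e1 : lowSet M.Q (u, v) \ D = ({l ∈ Dᶜ | 0 < cr (M.e u) (M.e v) (M.e l)} :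
      Finset (Fin #P)) := by
    ext l
    rw [mem_sdiff, mem_filter, mem_compl, M.mem_low hT, cr_swap]
    constructor
    · rintro ⟨h7, h8⟩; exact ⟨h8, by linarith⟩
    · rintro ⟨h7, h8⟩; exact ⟨by linarith, h7⟩
  have e2 : M.hi (u, v) \ D = ({l ∈ Dᶜ | cr (M.e u) (M.e v) (M.e l) < 0} :
      Finset (Fin #P)) := by
    ext l
    rw [mem_sdiff, mem_filter, mem_compl, M.mem_hi hP hT, cr_swap]
    constructor
    · rintro ⟨h7, h8⟩; exact ⟨h8, by linarith⟩
    · rintro ⟨h7, h8⟩; exact ⟨by linarith, h7⟩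
  rw [e1, e2, h5, h6]

/-! ### The expectation -/

theorem Model.lev_add (M : Model P) {q : Fin #P × Fin #P} (hq : q ∈ T M.Q) :
    (lowSet M.Q q).card + (M.hi q).card + 2 = #P ∧ Disjoint (lowSet M.Q q) (M.hi q) ∧
      ∀ D : Finset (Fin #P), D ⊆ lowSet M.Q q ∪ M.hi q ↔ q.1 ∉ D ∧ q.2 ∉ D := by
  classical
  have hq' := mem_T.mp hq
  have hne : q.1 ≠ q.2 := by
    intro h
    rw [h] at hq'
    exact lt_irrefl _ hq'
  have h1 : q.1 ∉ lowSet M.Q q := by
    rw [mem_lowSet]
    exact fst_notMem_low _ _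
  have h2 : q.2 ∉ lowSet M.Q q := by
    rw [mem_lowSet]
    exact snd_notMem_low hq'
  have hd : Disjoint (lowSet M.Q q) (M.hi q) := by
    rw [disjoint_left]
    intro l hl hl2
    unfold Model.hi at hl2
    rw [mem_sdiff, mem_insert, mem_insert] at hl2
    exact hl2.2 (Or.inr (Or.inr hl))
  refine ⟨?_, hd, ?_⟩
  · have h3 : (insert q.1 (insert q.2 (lowSet M.Q q))).card = (lowSet M.Q q).card + 2 := by
      rw [card_insert_of_notMem, card_insert_of_notMem h2]
      rw [mem_insert, not_or]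
      exact ⟨hne, h1⟩
    unfold Model.hi
    rw [card_sdiff_of_subset (subset_univ _), h3, card_univ, Fintype.card_fin]
    have := card_le_card (subset_univ (insert q.1 (insert q.2 (lowSet M.Q q))))
    rw [h3, card_univ, Fintype.card_fin] at this
    omega
  · intro D
    have hmem : ∀ l, l ∈ lowSet M.Q q ∪ M.hi q ↔ l ≠ q.1 ∧ l ≠ q.2 := by
      intro l
      unfold Model.hi
      rw [mem_union, mem_sdiff, mem_insert, mem_insert]
      constructor
      · rintro (h | ⟨-, h⟩)
        · exact ⟨fun h' => h1 (h' ▸ h), fun h' => h2 (h' ▸ h)⟩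
        · push Not at h
          exact ⟨h.1, h.2.1⟩
      · rintro ⟨h3, h4⟩
        by_cases h5 : l ∈ lowSet M.Q q
        · exact Or.inl h5
        · right
          refine ⟨mem_univ _, ?_⟩
          push Not
          exact ⟨h3, h4, h5⟩
    constructor
    · intro h
      exact ⟨fun h' => ((hmem _).mp (h h')).1 rfl, fun h' => ((hmem _).mp (h h')).2 rfl⟩
    · rintro ⟨h3, h4⟩ l hl
      rw [hmem]
      exact ⟨fun h' => h3 (h' ▸ hl), fun h' => h4 (h' ▸ hl)⟩

theorem Model.sum_bal (M : Model P) (r : ℝ) :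
    ∑ D : Finset (Fin #P), wt r D * (#(M.bal D) : ℝ) =
      (1 - r) ^ 2 * ∑ q ∈ T M.Q, ww (#P - 2) r (lev M.Q q) := by
  classical
  have h1 : ∀ D : Finset (Fin #P), wt r D * (#(M.bal D) : ℝ) = ∑ q ∈ T M.Q,
      (if D ⊆ lowSet M.Q q ∪ M.hi q ∧ (lowSet M.Q q \ D).card = (M.hi q \ D).card then wt r D
        else 0) := by
    intro D
    unfold Model.bal
    rw [card_filter, Nat.cast_sum, mul_sum]
    apply sum_congr rfl
    intro q hq
    have h2 := (M.lev_add hq).2.2 D
    by_cases h3 : q.1 ∉ D ∧ q.2 ∉ D ∧ (lowSet M.Q q \ D).card = (M.hi q \ D).card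
    · rw [if_pos h3, if_pos ⟨h2.mpr ⟨h3.1, h3.2.1⟩, h3.2.2⟩]
      simp
    · rw [if_neg h3, if_neg (fun h => h3 ⟨(h2.mp h.1).1, (h2.mp h.1).2, h.2⟩)]
      simp
  rw [sum_congr rfl (fun D _ => h1 D), sum_comm, mul_sum]
  apply sum_congr rfl
  intro q hq
  obtain ⟨h2, h3, -⟩ := M.lev_add hq
  rw [marg2 _ _ h3, show #P - ((lowSet M.Q q).card + (M.hi q).card) = 2 by omega]
  unfold ww
  rw [lev_eq, if_pos (by omega), show #P - 2 - (lowSet M.Q q).card = (M.hi q).card by omega]

theorem sum_ww {n : ℕ} {Q : Fin n → ℝ × ℝ} (hQ : GP Q) {s : ℝ} (hs0 : 0 < s) (hs1 : s < 1) :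
    s ^ 2 * ∑ q ∈ T Q, ww (n - 2) (1 - s) (lev Q q) ≤
      135 * (s * n) * (s * n / (1 - s)) ^ (1 / 6 : ℝ) := by
  classical
  have hr0 : 0 < 1 - s := by linarith
  have hn0 : (0 : ℝ) ≤ n := Nat.cast_nonneg n
  have hw0 : ∀ j, 0 ≤ ww (n - 2) (1 - s) j := ww_nonneg _ hr0.le (by linarith)
  rcases Nat.lt_or_ge n 3 with h3 | h3
  · -- at most one pair
    have h1 : ∑ q ∈ T Q, ww (n - 2) (1 - s) (lev Q q) ≤ (T Q).card := by
      calc _ ≤ ∑ q ∈ T Q, (1 : ℝ) :=
            sum_le_sum (fun q _ => ww_le_one _ hr0.le (by linarith) _)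
        _ = _ := by rw [sum_const, nsmul_eq_mul, mul_one]
    have h2 := T_card Q
    have h4 : ((T Q).card : ℝ) ≤ n := by
      have : (T Q).card ≤ n := by nlinarith
      exact_mod_cast this
    rcases Nat.eq_zero_or_pos n with h0 | h0
    · have h5 : (n : ℝ) = 0 := by exact_mod_cast h0
      have : s ^ 2 * ∑ q ∈ T Q, ww (n - 2) (1 - s) (lev Q q) ≤ s ^ 2 * 0 := by
        apply mul_le_mul_of_nonneg_left _ (by positivity)
        rw [h5] at h4
        exact h1.trans h4
      rw [h5]
      simp only [mul_zero, zero_mul] at this ⊢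
      exact this
    · have hn1 : (1 : ℝ) ≤ n := by exact_mod_cast h0
      have hb : s ≤ (s * n / (1 - s)) ^ (1 / 6 : ℝ) := by
        have h5 : s ^ (6 : ℕ) ≤ s * n / (1 - s) := by
          rw [le_div_iff₀ hr0]
          have h6 : s ^ 6 ≤ s := by
            calc s ^ 6 ≤ s ^ 1 := pow_le_pow_of_le_one hs0.le hs1.le (by norm_num)
              _ = s := pow_one s
          have h7 : s ^ 6 * (1 - s) ≤ s ^ 6 := by
            have : 0 ≤ s ^ 6 := by positivity
            nlinarith
          nlinarith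
        calc s = (s ^ (6 : ℕ)) ^ (1 / 6 : ℝ) := by
              rw [← Real.rpow_natCast, ← Real.rpow_mul hs0.le]
              norm_num
          _ ≤ _ := Real.rpow_le_rpow (by positivity) h5 (by norm_num)
      calc s ^ 2 * ∑ q ∈ T Q, ww (n - 2) (1 - s) (lev Q q) ≤ s ^ 2 * n :=
            mul_le_mul_of_nonneg_left (h1.trans h4) (by positivity)
        _ = (s * n) * s := by ring
        _ ≤ (s * n) * (s * n / (1 - s)) ^ (1 / 6 : ℝ) :=
            mul_le_mul_of_nonneg_left hb (by positivity)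
        _ ≤ 135 * (s * n) * (s * n / (1 - s)) ^ (1 / 6 : ℝ) := by
            have : 0 ≤ (s * n) * (s * n / (1 - s)) ^ (1 / 6 : ℝ) := by positivity
            linarith
  · have hn3 : (3 : ℝ) ≤ n := by exact_mod_cast h3
    have hN : ((n - 2 : ℕ) : ℝ) = n - 2 := by
      rw [Nat.cast_sub (by omega)]
      norm_num
    set t := (1 - s) * s with ht
    have ht0 : 0 < t := by positivity
    have htr : t ≤ 1 - s := by rw [ht]; nlinarith
    have hts : t ≤ 1 - (1 - s) := by rw [ht]; nlinarith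
    set S := Real.sqrt (t * (((n - 2 : ℕ) : ℝ) / 2)) with hS
    have hSpos : 0 < S := Real.sqrt_pos.mpr (by
      rw [hN]
      have : (0 : ℝ) < (n - 2) / 2 := by linarith
      positivity)
    set K := 2 * s * (4 / S) with hK
    have hK0 : 0 < K := by positivity
    have hmain := sum_below (P := Q) hQ (w := fun j => 2 * s * ww (n - 2) (1 - s) j) (M := K)
      (J := n + 1) (by omega) hK0 (fun j _ => by have := hw0 j; positivity)
      (fun j _ => mul_le_mul_of_nonneg_left (ww_sup (by omega) ht0 htr hts) (by positivity)) (by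
        rw [← mul_sum]
        calc 2 * s * ∑ j ∈ range (n + 1), ww (n - 2) (1 - s) j ≤ 2 * s * (1 / (1 - (1 - s))) :=
              mul_le_mul_of_nonneg_left (ww_sum _ _ hr0.le (by linarith)) (by positivity)
          _ = 2 := by
              rw [show (1 : ℝ) - (1 - s) = s by ring]
              field_simp)
    rw [EW_all Q (le_refl _), ← mul_sum] at hmain
    have hroot : ((n + 1 : ℕ) : ℝ) ^ (1 / 3 : ℝ) * K ^ (1 / 3 : ℝ) ≤
        3 * (s * n / (1 - s)) ^ (1 / 6 : ℝ) := by
      rw [← Real.mul_rpow (by positivity) hK0.le]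
      have h5 : ((n + 1 : ℕ) : ℝ) * K ≤ 27 * Real.sqrt (s * n / (1 - s)) := by
        have h6 : Real.sqrt (s * n / (1 - s)) * S = s * Real.sqrt (n * ((n - 2) / 2)) := by
          rw [hS, ← Real.sqrt_mul (by positivity), hN]
          have : s * n / (1 - s) * (t * ((n - 2) / 2)) = s ^ 2 * (n * ((n - 2) / 2)) := by
            rw [ht]
            field_simp
          rw [this, Real.sqrt_mul (by positivity), Real.sqrt_sq hs0.le]
        have h7 : 8 * ((n : ℝ) + 1) ≤ 27 * Real.sqrt (n * ((n - 2) / 2)) := by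
          have h8 : 8 * ((n : ℝ) + 1) / 27 ≤ Real.sqrt (n * ((n - 2) / 2)) := by
            apply Real.le_sqrt_of_sq_le
            nlinarith
          linarith
        have h9 : ((n + 1 : ℕ) : ℝ) * K * S = 8 * ((n : ℝ) + 1) * s := by
          rw [hK]
          push_cast
          field_simp
          ring
        have h10 : ((n + 1 : ℕ) : ℝ) * K * S ≤ 27 * Real.sqrt (s * n / (1 - s)) * S := by
          rw [h9, mul_assoc 27, h6]
          nlinarith
        exact le_of_mul_le_mul_right h10 hSpos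
      calc (((n + 1 : ℕ) : ℝ) * K) ^ (1 / 3 : ℝ) ≤
            (27 * Real.sqrt (s * n / (1 - s))) ^ (1 / 3 : ℝ) :=
            Real.rpow_le_rpow (by positivity) h5 (by norm_num)
        _ = 3 * (s * n / (1 - s)) ^ (1 / 6 : ℝ) := by
            rw [Real.mul_rpow (by norm_num) (Real.sqrt_nonneg _), Real.sqrt_eq_rpow,
              ← Real.rpow_mul (by positivity)]
            congr 1
            · rw [show (27 : ℝ) = 3 ^ (3 : ℝ) by norm_num, ← Real.rpow_mul (by norm_num)]
              norm_num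
            · norm_num
    have h11 : 2 * s * ∑ q ∈ T Q, ww (n - 2) (1 - s) (lev Q q) ≤
        90 * n * (3 * (s * n / (1 - s)) ^ (1 / 6 : ℝ)) :=
      hmain.trans (mul_le_mul_of_nonneg_left hroot (by positivity))
    calc s ^ 2 * ∑ q ∈ T Q, ww (n - 2) (1 - s) (lev Q q) =
          s / 2 * (2 * s * ∑ q ∈ T Q, ww (n - 2) (1 - s) (lev Q q)) := by ring
      _ ≤ s / 2 * (90 * n * (3 * (s * n / (1 - s)) ^ (1 / 6 : ℝ))) :=
          mul_le_mul_of_nonneg_left h11 (by positivity)
      _ = _ := by ring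

open Classical in
/-- the sum over all subsets as a sum over all sets of deleted indices -/
theorem Model.sum_subsets (M : Model P) (F : Finset (ℝ × ℝ) → ℝ) :
    ∑ R ∈ P.powerset, F R = ∑ D : Finset (Fin #P), F (M.sur D) := by
  symm
  apply sum_nbij' (fun D => M.sur D) (fun R => univ.filter (fun l => M.e l ∉ R))
  · intro D _
    rw [mem_powerset]
    intro x hx
    unfold Model.sur at hx
    rw [mem_image] at hx
    obtain ⟨l, -, rfl⟩ := hx
    exact M.mem l
  · intro R _
    exact mem_univ _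
  · intro D _
    ext l
    rw [mem_filter]
    unfold Model.sur
    rw [mem_image]
    constructor
    · rintro ⟨-, h⟩
      by_contra hl
      exact h ⟨l, mem_compl.mpr hl, rfl⟩
    · intro hl
      refine ⟨mem_univ _, ?_⟩
      rintro ⟨l', hl', h⟩
      rw [M.inj h] at hl'
      exact (mem_compl.mp hl') hl
  · intro R hR
    rw [mem_powerset] at hR
    ext x
    unfold Model.sur
    rw [mem_image]
    constructor
    · rintro ⟨l, hl, rfl⟩
      rw [mem_compl, mem_filter, not_and_or, not_not] at hl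
      exact hl.resolve_left (fun h => h (mem_univ _))
    · intro hx
      obtain ⟨l, rfl⟩ := M.surj x (hR hx)
      refine ⟨l, ?_, rfl⟩
      rw [mem_compl, mem_filter, not_and_or, not_not]
      exact Or.inr hx
  · intro D _
    rfl

open Classical in
theorem Model.sur_card (M : Model P) (D : Finset (Fin #P)) : #(M.sur D) = #P - #D := by
  unfold Model.sur
  rw [card_image_of_injective _ M.inj, card_compl, Fintype.card_fin]

open Classical in
/-- **Random subsets.**  Every point survives with probability `s`: the expected number of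
bisectors of the surviving set. -/
theorem expected (hP : Gen P) {s : ℝ} (hs0 : 0 < s) (hs1 : s < 1) :
    ∑ R ∈ P.powerset, s ^ #R * (1 - s) ^ (#P - #R) * ({L | IsBisector R L}.ncard : ℝ) ≤
      135 * (s * #P) * (s * #P / (1 - s)) ^ (1 / 6 : ℝ) := by
  obtain ⟨M⟩ := exists_model hP
  rw [M.sum_subsets]
  refine le_trans ?_ (sum_ww M.gp hs0 hs1)
  have h := M.sum_bal (1 - s)
  rw [show (1 : ℝ) - (1 - s) = s by ring] at h
  rw [← h]
  apply sum_le_sum
  intro D _
  have hD : #D ≤ #P := by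
    have := card_le_univ D
    rwa [Fintype.card_fin] at this
  rw [M.sur_card, show #P - (#P - #D) = #D by omega]
  unfold wt
  rw [show (1 : ℝ) - (1 - s) = s by ring, mul_comm (s ^ (#P - #D))]
  apply mul_le_mul_of_nonneg_left _ (by
    have : 0 ≤ 1 - s := by linarith
    positivity)
  exact_mod_cast M.bis_le hP D

end Pool.Agent.R943.HL
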