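import Pool.Agent.Y344.KD.Final

/-! Random deletions: pairs with equally many survivors on the two sides. -/

set_option autoImplicit false

namespace Pool.Agent.R943.HL

open Finset Polynomial Pool.Agent.Y344.KD Pool.Agent.H189R2.Iid Pool.Agent.H189R2.Lev

theorem bin_pow (m : ℕ) (r : ℝ) : ((C (1 - r) * X + C r : ℝ[X])) ^ m =
    ∑ k ∈ range (m + 1), C (bb k m r) * X ^ k := by
  rw [add_pow]
  apply sum_congr rfl
  intro k _
  unfold bb
  rw [mul_pow, C_mul, C_mul, C_pow, C_pow]
  simp only [map_natCast]
  ring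

theorem bin_coeff (m k : ℕ) (r : ℝ) : ((C (1 - r) * X + C r : ℝ[X]) ^ m).coeff k = bb k m r := by
  rw [bin_pow, finsetSum_coeff]
  simp only [coeff_C_mul_X_pow]
  by_cases hk : k ∈ range (m + 1)
  · rw [sum_ite_eq, if_pos hk]
  · rw [sum_ite_eq, if_neg hk, bb_zero (by rw [mem_range] at hk; omega)]

theorem bin_coeff' (m k : ℕ) (hk : k ≤ m) (r : ℝ) :
    ((C r * X + C (1 - r) : ℝ[X]) ^ m).coeff k = bb (m - k) m r := by
  have h := bin_coeff m k (1 - r)
  rw [show (1 : ℝ) - (1 - r) = r by ring] at h
  rw [h]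
  unfold bb
  rw [Nat.choose_symm hk, show m - (m - k) = k by omega]
  ring

theorem marg2 {n : ℕ} (A B : Finset (Fin n)) (hAB : Disjoint A B) (r : ℝ) :
    ∑ D : Finset (Fin n), (if D ⊆ A ∪ B ∧ (A \ D).card = (B \ D).card then wt r D else 0) =
      (1 - r) ^ (n - (A.card + B.card)) *
        ∑ i ∈ range (B.card + 1), bb i A.card r * bb i B.card r := by
  classical
  set f : Fin n → ℝ[X] := fun l => if l ∈ A then C r else if l ∈ B then C r * X else 0 with hf
  set g : Fin n → ℝ[X] := fun l => if l ∈ A then C (1 - r) * X else C (1 - r) with hg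
  have h1 := Fintype.prod_add f g
  have hdisj : ∀ l, l ∈ A → l ∉ B := fun l h => Finset.disjoint_left.mp hAB h
  -- the product
  have h2 : ∏ l : Fin n, (f l + g l) = (C (1 - r) * X + C r) ^ A.card *
      ((C r * X + C (1 - r)) ^ B.card * C ((1 - r) ^ (n - (A.card + B.card)))) := by
    have e : ∀ l, f l + g l = (if l ∈ A then (C (1 - r) * X + C r) else 1) *
        ((if l ∈ B then (C r * X + C (1 - r)) else 1) *
          (if l ∈ (A ∪ B)ᶜ then C (1 - r) else 1)) := by
      intro l
      by_cases hA : l ∈ A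
      · have hB := hdisj l hA
        simp [hf, hg, hA, hB, add_comm]
      · by_cases hB : l ∈ B
        · simp [hf, hg, hA, hB]
        · simp [hf, hg, hA, hB]
    rw [prod_congr rfl (fun l _ => e l), prod_mul_distrib, prod_mul_distrib]
    rw [prod_ite_mem, prod_ite_mem, prod_ite_mem]
    simp only [univ_inter, prod_const]
    rw [card_compl, Fintype.card_fin, card_union_of_disjoint hAB, C_pow]
  have h3 : ∀ D : Finset (Fin n), (∏ l ∈ D, f l) * ∏ l ∈ Dᶜ, g l =
      C (if D ⊆ A ∪ B then wt r D else 0) * X ^ ((A \ D).card + (B ∩ D).card) := by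
    intro D
    have eg : ∏ l ∈ Dᶜ, g l = C (1 - r) ^ (n - D.card) * X ^ (A \ D).card := by
      have e1 : ∀ l : Fin n, g l = C (1 - r) * (if l ∈ A then X else 1) := by
        intro l
        simp only [hg]
        split_ifs <;> simp
      rw [prod_congr rfl (fun l _ => e1 l), prod_mul_distrib, prod_const, prod_ite,
        prod_const, prod_const_one, mul_one]
      have e2 : Dᶜ.filter (fun l => l ∈ A) = A \ D := by
        ext l
        simp only [mem_filter, mem_compl, mem_sdiff]
        tauto
      rw [e2, card_compl, Fintype.card_fin]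
    by_cases hD : D ⊆ A ∪ B
    · have ef : ∏ l ∈ D, f l = C r ^ D.card * X ^ (B ∩ D).card := by
        have e1 : ∀ l ∈ D, f l = C r * (if l ∈ B then X else 1) := by
          intro l hl
          have := hD hl
          rw [mem_union] at this
          simp only [hf]
          by_cases hA : l ∈ A
          · simp [hA, hdisj l hA]
          · simp [hA, this.resolve_left hA]
        rw [prod_congr rfl e1, prod_mul_distrib, prod_const, prod_ite, prod_const, prod_const_one,
          mul_one]
        have e2 : D.filter (fun l => l ∈ B) = B ∩ D := by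
          ext l
          simp only [mem_filter, mem_inter]
          tauto
        rw [e2]
      rw [ef, eg, if_pos hD]
      unfold wt
      rw [C_mul, C_pow, C_pow]
      ring
    · rw [if_neg hD]
      have : ∃ l ∈ D, l ∉ A ∪ B := by
        by_contra hcon
        push Not at hcon
        exact hD hcon
      obtain ⟨l, hl, hl2⟩ := this
      rw [mem_union, not_or] at hl2
      rw [prod_eq_zero hl (by simp [hf, hl2.1, hl2.2])]
      simp
  rw [h2] at h1
  simp only [h3] at h1
  have h4 := congrArg (fun p : ℝ[X] => p.coeff B.card) h1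
  simp only [finsetSum_coeff, coeff_C_mul_X_pow] at h4
  have h5 : ∀ D : Finset (Fin n),
      (if D ⊆ A ∪ B ∧ (A \ D).card = (B \ D).card then wt r D else 0) =
      if B.card = (A \ D).card + (B ∩ D).card then (if D ⊆ A ∪ B then wt r D else 0) else 0 := by
    intro D
    have : (B \ D).card + (B ∩ D).card = B.card := card_sdiff_add_card_inter B D
    have hiff : (A \ D).card = (B \ D).card ↔ B.card = (A \ D).card + (B ∩ D).card := by
      constructor
      · intro h; omega
      · intro h; omega
    by_cases h1 : D ⊆ A ∪ B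
    · by_cases h2 : (A \ D).card = (B \ D).card
      · rw [if_pos ⟨h1, h2⟩, if_pos (hiff.mp h2), if_pos h1]
      · rw [if_neg (fun h => h2 h.2), if_neg (fun h => h2 (hiff.mpr h))]
    · rw [if_neg (fun h => h1 h.1)]
      simp [h1]
  rw [sum_congr rfl (fun D _ => h5 D), ← h4]
  rw [← mul_assoc, coeff_mul_C, coeff_mul, mul_comm]
  congr 1
  rw [Finset.Nat.sum_antidiagonal_eq_sum_range_succ
    (fun x y => ((C (1 - r) * X + C r : ℝ[X]) ^ A.card).coeff x *
      ((C r * X + C (1 - r) : ℝ[X]) ^ B.card).coeff y)]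
  apply sum_congr rfl
  intro k hk
  rw [mem_range] at hk
  rw [bin_coeff, bin_coeff' _ _ (by omega), show B.card - (B.card - k) = k by omega]

/-! ### The weights -/

theorem bb_total (b : ℕ) (r : ℝ) : ∑ i ∈ range (b + 1), bb i b r = 1 := by
  have h := add_pow (1 - r) r b
  rw [show (1 : ℝ) - r + r = 1 by ring, one_pow] at h
  rw [h]
  apply sum_congr rfl
  intro i _
  unfold bb
  ring

theorem bb_partial (b K : ℕ) {r : ℝ} (h0 : 0 ≤ r) (h1 : r ≤ 1) :
    ∑ i ∈ range K, bb i b r ≤ 1 := by
  rw [← bb_total b r]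
  rcases le_total K (b + 1) with h | h
  · exact sum_le_sum_of_subset_of_nonneg (range_subset_range.mpr h)
      (fun i _ _ => bb_nonneg i b h0 h1)
  · apply le_of_eq
    symm
    apply sum_subset (range_subset_range.mpr h)
    intro i _ hi
    rw [mem_range, not_lt] at hi
    exact bb_zero (by omega) r

/-- probability that equally many elements survive in disjoint sets of `j` and `N - j` elements -/
noncomputable def ww (N : ℕ) (r : ℝ) (j : ℕ) : ℝ :=
  if j ≤ N then ∑ i ∈ range (N - j + 1), bb i j r * bb i (N - j) r else 0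

theorem ww_nonneg (N : ℕ) {r : ℝ} (h0 : 0 ≤ r) (h1 : r ≤ 1) (j : ℕ) : 0 ≤ ww N r j := by
  unfold ww
  split_ifs
  · exact sum_nonneg (fun i _ => mul_nonneg (bb_nonneg _ _ h0 h1) (bb_nonneg _ _ h0 h1))
  · exact le_rfl

theorem ww_le_one (N : ℕ) {r : ℝ} (h0 : 0 ≤ r) (h1 : r ≤ 1) (j : ℕ) : ww N r j ≤ 1 := by
  unfold ww
  split_ifs
  · calc ∑ i ∈ range (N - j + 1), bb i j r * bb i (N - j) r ≤
          ∑ i ∈ range (N - j + 1), 1 * bb i (N - j) r :=
          sum_le_sum (fun i _ => mul_le_mul_of_nonneg_right (bb_le_one _ _ h0 h1)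
            (bb_nonneg _ _ h0 h1))
      _ ≤ 1 := by
          rw [← mul_sum, one_mul]
          exact bb_partial _ _ h0 h1
  · exact zero_le_one

/-- extension of `bb_sup` to all probabilities -/
theorem bb_sup' {k j : ℕ} {r t : ℝ} (ht : 0 < t) (htr : t ≤ r) (hts : t ≤ 1 - r) (hj : 1 ≤ j) :
    bb k j r ≤ 4 / Real.sqrt (t * j) := by
  have hj0 : (0 : ℝ) < j := by exact_mod_cast hj
  have hpos : 0 < Real.sqrt (t * j) := Real.sqrt_pos.mpr (by positivity)
  rcases le_total r (1 / 2) with h | h
  · refine (bb_sup (lt_of_lt_of_le ht htr) h hj).trans ?_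
    apply div_le_div_of_nonneg_left (by norm_num) hpos
    apply Real.sqrt_le_sqrt
    exact mul_le_mul_of_nonneg_right htr hj0.le
  · rcases lt_or_ge j k with hkj | hkj
    · rw [bb_zero hkj]
      positivity
    · have e : bb k j r = bb (j - k) j (1 - r) := by
        unfold bb
        rw [Nat.choose_symm hkj, show j - (j - k) = k by omega]
        ring
      rw [e]
      refine (bb_sup (lt_of_lt_of_le ht hts) (by linarith) hj).trans ?_
      apply div_le_div_of_nonneg_left (by norm_num) hpos
      apply Real.sqrt_le_sqrt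
      exact mul_le_mul_of_nonneg_right hts hj0.le

theorem ww_sup {N j : ℕ} (hN : 1 ≤ N) {r t : ℝ} (ht : 0 < t) (htr : t ≤ r) (hts : t ≤ 1 - r) :
    ww N r j ≤ 4 / Real.sqrt (t * (N / 2)) := by
  have hN0 : (0 : ℝ) < N := by exact_mod_cast hN
  have hr : 0 < r := lt_of_lt_of_le ht htr
  have hpos : 0 < Real.sqrt (t * (N / 2)) := Real.sqrt_pos.mpr (by positivity)
  unfold ww
  split_ifs with hj
  · have key : ∀ m : ℕ, (N : ℝ) / 2 ≤ m → ∀ i, bb i m r ≤ 4 / Real.sqrt (t * (N / 2)) := by
      intro m hm i
      have hm1 : 1 ≤ m := by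
        rcases Nat.eq_zero_or_pos m with h | h
        · subst h
          simp at hm
          linarith
        · exact h
      refine (bb_sup' ht htr hts hm1).trans ?_
      apply div_le_div_of_nonneg_left (by norm_num) hpos
      apply Real.sqrt_le_sqrt
      exact mul_le_mul_of_nonneg_left hm ht.le
    rcases le_total (N : ℝ) (2 * j) with h | h
    · calc ∑ i ∈ range (N - j + 1), bb i j r * bb i (N - j) r ≤
            ∑ i ∈ range (N - j + 1), 4 / Real.sqrt (t * (N / 2)) * bb i (N - j) r :=
            sum_le_sum (fun i _ => mul_le_mul_of_nonneg_right (key j (by linarith) i)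
              (bb_nonneg _ _ hr.le (by linarith)))
        _ ≤ 4 / Real.sqrt (t * (N / 2)) * 1 := by
            rw [← mul_sum]
            exact mul_le_mul_of_nonneg_left (bb_partial _ _ hr.le (by linarith)) (by positivity)
        _ = _ := mul_one _
    · have hc : ((N - j : ℕ) : ℝ) = N - j := Nat.cast_sub hj
      calc ∑ i ∈ range (N - j + 1), bb i j r * bb i (N - j) r ≤
            ∑ i ∈ range (N - j + 1), bb i j r * (4 / Real.sqrt (t * (N / 2))) :=
            sum_le_sum (fun i _ => mul_le_mul_of_nonneg_left (key (N - j) (by rw [hc]; linarith) i)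
              (bb_nonneg _ _ hr.le (by linarith)))
        _ ≤ 1 * (4 / Real.sqrt (t * (N / 2))) := by
            rw [← sum_mul]
            exact mul_le_mul_of_nonneg_right (bb_partial _ _ hr.le (by linarith)) (by positivity)
        _ = _ := one_mul _
  · positivity

theorem choose_series (i : ℕ) : (PowerSeries.mk (fun n => (n.choose i : ℝ))) =
    PowerSeries.X ^ i * (PowerSeries.mk 1) ^ (i + 1) := by
  ext n
  rw [PowerSeries.mk_one_pow_eq_mk_choose_add, PowerSeries.coeff_X_pow_mul', PowerSeries.coeff_mk]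
  split_ifs with h
  · rw [PowerSeries.coeff_mk, show i + (n - i) = n by omega]
  · rw [Nat.choose_eq_zero_of_lt (by omega)]
    simp

theorem choose_conv (N i : ℕ) :
    ∑ j ∈ range (N + 1), (j.choose i : ℝ) * ((N - j).choose i : ℝ) =
      ((N + 1).choose (2 * i + 1) : ℝ) := by
  have h1 : (PowerSeries.mk (fun n => (n.choose i : ℝ))) * (PowerSeries.mk (fun n => (n.choose i : ℝ)))
      = PowerSeries.X ^ (2 * i) * (PowerSeries.mk 1) ^ (2 * i + 1 + 1) := by
    rw [choose_series]
    ring
  have h2 := congrArg (fun p => PowerSeries.coeff N p) h1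
  rw [PowerSeries.coeff_mul, PowerSeries.coeff_X_pow_mul'] at h2
  simp only [PowerSeries.coeff_mk] at h2
  rw [Finset.Nat.sum_antidiagonal_eq_sum_range_succ
    (fun x y => (x.choose i : ℝ) * (y.choose i : ℝ))] at h2
  rw [h2]
  split_ifs with h
  · rw [PowerSeries.mk_one_pow_eq_mk_choose_add, PowerSeries.coeff_mk,
      show 2 * i + 1 + (N - 2 * i) = N + 1 by omega]
  · rw [Nat.choose_eq_zero_of_lt (by omega)]
    simp

theorem ww_sum (N J : ℕ) {r : ℝ} (h0 : 0 ≤ r) (h1 : r < 1) :
    ∑ j ∈ range J, ww N r j ≤ 1 / (1 - r) := by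
  have hr1 : (0 : ℝ) < 1 - r := by linarith
  have step1 : ∑ j ∈ range J, ww N r j ≤ ∑ j ∈ range (N + 1), ww N r j := by
    rcases le_total J (N + 1) with h | h
    · exact sum_le_sum_of_subset_of_nonneg (range_subset_range.mpr h)
        (fun j _ _ => ww_nonneg N h0 (by linarith) j)
    · apply le_of_eq
      symm
      apply sum_subset (range_subset_range.mpr h)
      intro j _ hj
      rw [mem_range, not_lt] at hj
      unfold ww
      rw [if_neg (by omega)]
  have step2 : ∀ j ∈ range (N + 1), ww N r j =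
      ∑ i ∈ range (N + 1), (j.choose i : ℝ) * ((N - j).choose i : ℝ) *
        ((1 - r) ^ (2 * i) * r ^ (N - 2 * i)) := by
    intro j hj
    rw [mem_range] at hj
    unfold ww
    rw [if_pos (by omega)]
    rw [sum_subset (range_subset_range.mpr (by omega : N - j + 1 ≤ N + 1))
      (f := fun i => bb i j r * bb i (N - j) r)
      (fun i _ hi => by
        rw [mem_range, not_lt] at hi
        rw [bb_zero (k := i) (j := N - j) (by omega), mul_zero])]
    apply sum_congr rfl
    intro i _
    by_cases hij : i ≤ j ∧ i ≤ N - j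
    · unfold bb
      have e : r ^ (N - 2 * i) = r ^ (j - i) * r ^ (N - j - i) := by
        rw [← pow_add]
        congr 1
        omega
      rw [e, two_mul, pow_add]
      ring
    · rw [not_and_or, not_le, not_le] at hij
      rcases hij with h | h
      · rw [bb_zero h, Nat.choose_eq_zero_of_lt h]
        simp
      · rw [bb_zero h, Nat.choose_eq_zero_of_lt h]
        simp
  have step3 : ∑ j ∈ range (N + 1), ww N r j = ∑ i ∈ range (N + 1),
      ((N + 1).choose (2 * i + 1) : ℝ) * ((1 - r) ^ (2 * i) * r ^ (N - 2 * i)) := by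
    rw [sum_congr rfl step2, sum_comm]
    apply sum_congr rfl
    intro i _
    rw [← choose_conv, sum_mul]
  have step4 : ∑ i ∈ range (N + 1),
      ((N + 1).choose (2 * i + 1) : ℝ) * ((1 - r) ^ (2 * i) * r ^ (N - 2 * i)) ≤
      1 / (1 - r) * ∑ m ∈ range (2 * N + 3), bb m (N + 1) r := by
    have e : ∀ i ∈ range (N + 1), ((N + 1).choose (2 * i + 1) : ℝ) *
        ((1 - r) ^ (2 * i) * r ^ (N - 2 * i)) = 1 / (1 - r) * bb (2 * i + 1) (N + 1) r := by
      intro i _
      unfold bb
      rw [show N + 1 - (2 * i + 1) = N - 2 * i by omega, pow_succ]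
      field_simp
    rw [sum_congr rfl e, ← mul_sum]
    apply mul_le_mul_of_nonneg_left _ (by positivity)
    rw [← sum_image (f := fun m => bb m (N + 1) r) (g := fun i => 2 * i + 1)
      (s := range (N + 1)) (fun a _ b _ h => by simpa using h)]
    apply sum_le_sum_of_subset_of_nonneg
    · intro m hm
      rw [mem_image] at hm
      obtain ⟨i, hi, rfl⟩ := hm
      rw [mem_range] at hi ⊢
      omega
    · intro m _ _
      exact bb_nonneg _ _ h0 (by linarith)
  refine step1.trans (step3.le.trans (step4.trans ?_))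
  calc 1 / (1 - r) * ∑ m ∈ range (2 * N + 3), bb m (N + 1) r ≤ 1 / (1 - r) * 1 :=
        mul_le_mul_of_nonneg_left (bb_partial _ _ h0 (by linarith)) (by positivity)
    _ = _ := mul_one _

end Pool.Agent.R943.HL
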